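import Pool.Agent.H60.Hg.Main
import Pool.Agent.H81.HD.Final

/-!
# A projective hedgehog all of whose singularities are cuspidal edges
-/

namespace Pool.Agent.Results.MP_528454_gt.OnlyCuspidalEdges

open Pool.Agent.H30.Hedge (V3 SingularAt SmoothOnSphere)
open Pool.Agent.H81.HD (CuspidalEdge)

/-- There is a smooth odd function `h` on the unit sphere such that every singular point of the
hedgehog `x_h(u) = h(u) u + ∇ h(u)` is a cuspidal edge: there are generic projective hedgehogs
without swallowtails. -/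
theorem result : ∃ h : V3 → ℝ, SmoothOnSphere h ∧ (∀ u, h (-u) = -h u) ∧
    ∀ u, ‖u‖ = 1 → SingularAt h u → CuspidalEdge h u := by
  obtain ⟨P3, Q3, m, N, c0, h1, h2, h3, h4, h5, h6, h7, h8, h9⟩ := H60Hg.hedge_A
  exact Pool.Agent.H81.HD.main P3 Q3 m N c0 h1 h2 h3 h4 h5 h6 h7 h8 h9

end Pool.Agent.Results.MP_528454_gt.OnlyCuspidalEdges
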